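import Pool.Agent.ARC.StmtsP

/-!
# Squad ARC, row AMW
-/

set_option autoImplicit false

namespace Pool.Agent.ARC.H15

open scoped BigOperators
open Pool.Agent.THS Pool.Agent.ZES
open Pool.Agent.SZG (Ch Idx gam QS WX Wf Xf Mp FF Bx Row lft Zz IM)

theorem t0_pos (hT : TouStatement) {g : ℕ} {τ : Matrix (Fin g) (Fin g) ℂ} (hS : Siegel τ) :
    0 < t0 τ := by
  obtain ⟨-, -, -, -, h5, -⟩ := hT g τ hS
  obtain ⟨c, hc⟩ := h5 0
  have h1 : ‖Thc τ c 0‖ ≤ t0 τ :=
    le_ciSup (f := fun c : Ch g => ‖Thc τ c 0‖) (Set.finite_range _).bddAbove c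
  exact lt_of_lt_of_le (norm_pos_iff.2 hc) h1

theorem Yv_smul {g : ℕ} (τ : Matrix (Fin g) (Fin g) ℂ) (y : Fin g → ℝ) (s : ℝ) (r : Fin g) :
    Yv τ (fun i => s * y i) r = s * Yv τ y r := by
  rw [Yv, Yv, Finset.mul_sum]
  exact Finset.sum_congr rfl fun j _ => by ring

theorem Yq_smul {g : ℕ} (τ : Matrix (Fin g) (Fin g) ℂ) (y : Fin g → ℝ) (s : ℝ) :
    Yq τ (fun i => s * y i) = s ^ 2 * Yq τ y := by
  rw [Yq, Yq, Finset.mul_sum]
  refine Finset.sum_congr rfl fun i _ => ?_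
  rw [Finset.mul_sum]
  exact Finset.sum_congr rfl fun j _ => by ring

theorem dt_smul {g : ℕ} (h : Fin g → ℤ) (y : Fin g → ℝ) (s : ℝ) :
    dt h (fun i => s * y i) = s * dt h y := by
  rw [dt, dt, Finset.mul_sum]
  exact Finset.sum_congr rfl fun j _ => by ring

/-- **AMW**. -/
theorem amw (hG : TgwStmt) (hX : AmxStmt) (hT : TouStatement) : AmwStmt := by
  intro g K _ l E L0 c e s T x' hl hodd hQS hP x hx ψ v hv τ γ hAD lam h y L hlam hL hnd hq hy
    R r k hk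
  obtain ⟨ν, η, A, h1, h2, h3⟩ := hG g K l E L0 c e s T x' hodd hQS hP x hx ψ v hv τ γ hAD
  set r' : Fin R → Row g l := fun i => ((r i).1, A (r i).2) with hr'
  set w : Fin R → Fin g → ℂ := fun j i => ((2 * k j : ℕ) : ℂ) * γ (Zz g) i with hw
  set y' : Fin R → Fin g → ℝ := fun j i => ((2 * k j : ℕ) : ℝ) * y i with hy'
  set N : Matrix (Fin R) (Fin R) ℂ :=
    Matrix.of fun i j => FF τ l (lft (r' i).2).2.1 (lft (r' i).2).2.2 (r' i).1 (w j) with hN
  have hB := hX g τ hAD.sg (t0_pos hT hAD.sg) l hl hodd lam h L hlam hL hnd hq R r' w y'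
    (fun j i => by
      have e1 : (w j i).im = ((2 * k j : ℕ) : ℝ) * (γ (Zz g) i).im := by
        simp only [hw]
        rw [Complex.mul_im, Complex.natCast_re, Complex.natCast_im, zero_mul, add_zero]
      rw [e1, hy i]
      exact (Yv_smul τ y _ i).symm)
    (fun j => by
      obtain ⟨M, hM⟩ := hk j
      refine ⟨M, ?_⟩
      simp only [hy']
      rw [dt_smul]
      exact hM)
  have hdet : ψ (IM l e T r (fun j => 2 * k j)).det =
      (∏ j, ν (k j)) * ((∏ i, η (r i).2) * N.det) := by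
    rw [RingHom.map_det]
    have e2 : ψ.mapMatrix (IM l e T r (fun j => 2 * k j)) =
        Matrix.of fun i j => ν (k j) * (Matrix.of fun i j => η (r i).2 * N i j) i j := by
      ext i j
      rw [RingHom.mapMatrix_apply, Matrix.map_apply, IM, Matrix.of_apply, Matrix.of_apply,
        Matrix.of_apply, h1, hN, Matrix.of_apply, mul_assoc]
    rw [e2, Matrix.det_mul_row, Matrix.det_mul_column]
  rw [hv, hdet, norm_mul, norm_mul, norm_prod, norm_prod]
  have e3 : (∏ i : Fin R, Wf v E e (lft (r i).2)) = (∏ i, ‖η (r i).2‖) * ∏ i : Fin R,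
      Real.exp (8 * Real.pi * Yq τ (fun m => ((lft (r' i).2).2.2 m : ℝ)) / (l : ℝ) ^ 2) := by
    rw [← Finset.prod_mul_distrib]
    exact Finset.prod_congr rfl fun i _ => h2 (r i).2
  have e4 : (∏ j : Fin R, nv v (T 0) * Wf v E e ((l * (2 * k j)) • Zz g)) =
      (∏ j, ‖ν (k j)‖) * ∏ j : Fin R, t0 τ * Real.exp (8 * Real.pi * (l : ℝ) ^ 2 * Yq τ (y' j)) := by
    rw [← Finset.prod_mul_distrib]
    refine Finset.prod_congr rfl fun j _ => ?_
    rw [h3 y hy (k j)]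
    simp only [hy']
    rw [Yq_smul]
    push_cast
    rfl
  rw [e3, e4]
  have h5 : 0 ≤ ∏ j, ‖ν (k j)‖ := Finset.prod_nonneg fun _ _ => norm_nonneg _
  have h6 : 0 ≤ ∏ i, ‖η (r i).2‖ := Finset.prod_nonneg fun _ _ => norm_nonneg _
  have h7 := mul_le_mul_of_nonneg_left (mul_le_mul_of_nonneg_left hB h6) h5
  refine h7.trans (le_of_eq ?_)
  ring

end Pool.Agent.ARC.H15
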