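import Pool.Agent.ARC.StmtsU

/-!
# Squad ARC, row AMY
-/

set_option autoImplicit false

namespace Pool.Agent.ARC.H15Y

open scoped BigOperators InnerProductSpace
open Pool.Agent.THS Pool.Agent.ZES
open Pool.Agent.SZG (Ch Idx gam QS WX Wf Xf Mp FF Bx Row lft Zz IM)

/-- Every vector has an imaginary part of the form `Y y`. -/
theorem exists_im {g : ℕ} {τ : Matrix (Fin g) (Fin g) ℂ} (hS : Siegel τ) (z : Fin g → ℂ) :
    ∃ y : Fin g → ℝ, ∀ i, (z i).im = Yv τ y i := by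
  have hY : (τ.map Complex.im).PosDef := hS.2
  have hd : IsUnit (τ.map Complex.im).det := hY.det_pos.ne'.isUnit
  refine ⟨(τ.map Complex.im)⁻¹.mulVec (fun i => (z i).im), fun i => ?_⟩
  have h1 : (τ.map Complex.im).mulVec ((τ.map Complex.im)⁻¹.mulVec (fun i => (z i).im)) =
      fun i => (z i).im := by
    rw [Matrix.mulVec_mulVec, Matrix.mul_nonsing_inv _ hd, Matrix.one_mulVec]
  have h2 := congrFun h1 i
  rw [← h2]
  rfl

theorem im_lin {g : ℕ} (τ : Matrix (Fin g) (Fin g) ℂ) (x y : Fin g → ℝ) (i : Fin g) :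
    ((x i : ℂ) + ∑ m, τ i m * (y m : ℂ)).im = Yv τ y i := by
  rw [Complex.add_im, Complex.ofReal_im, zero_add, Complex.im_sum, Yv]
  refine Finset.sum_congr rfl fun m _ => ?_
  rw [Complex.im_mul_ofReal]

theorem t0_nonneg {g : ℕ} (τ : Matrix (Fin g) (Fin g) ℂ) : 0 ≤ t0 τ :=
  Real.iSup_nonneg fun _ => norm_nonneg _

section tv

variable {V : Type} [NormedAddCommGroup V] [InnerProductSpace ℂ V]

theorem tv_add (n : ℕ) (η : V) (F G : V → ℂ) : tv n η (F + G) = tv n η F + tv n η G := by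
  funext x
  simp only [tv, Pi.add_apply]
  ring

theorem tv_smul (n : ℕ) (η : V) (c : ℂ) (F : V → ℂ) : tv n η (c • F) = c • tv n η F := by
  funext x
  simp only [tv, Pi.smul_apply, smul_eq_mul]
  ring

theorem tv_zero (n : ℕ) (η : V) : tv n η (0 : V → ℂ) = 0 := by
  funext x
  simp only [tv, Pi.zero_apply, zero_mul]

/-- The evaluation at points with weights. -/
noncomputable def ev {R : ℕ} (v : Fin R → V) (c : Fin R → ℂ) : (V → ℂ) →ₗ[ℂ] (Fin R → ℂ) where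
  toFun F := fun j => F (v j) * c j
  map_add' F G := by funext j; simp only [Pi.add_apply]; ring
  map_smul' a F := by
    funext j
    simp only [Pi.smul_apply, smul_eq_mul, RingHom.id_apply]
    ring

/-- The rank of one class. -/
theorem rank_le (hEGD : EgdStmt) {L : AddSubgroup V} {χ : V → ℂ} (hL : LAT L χ) {n g : ℕ}
    (hn : 1 ≤ n) (hfin : Module.Finite ℂ ↥(TN L χ n))
    (hfr : Module.finrank ℂ ↥(TN L χ n) ≤ n ^ g) {u u1 : V} (hu : u ∈ L) (hu1 : u1 ∈ L)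
    (h1 : (inner ℂ u u1).im = 1) (κ : ℕ) {R : ℕ} (Fk : Fin R → V → ℂ)
    (hF : ∀ i, Fk i ∈ TN L χ n) (hE : ∀ i, tv n (fr n u) (Fk i) = rt n κ • Fk i)
    (v : Fin R → V) (c : Fin R → ℂ) :
    Module.finrank ℂ (Submodule.span ℂ (Set.range (fun i j => Fk i (v j) * c j))) ≤
      n ^ (g - 1) := by
  set S : Submodule ℂ (V → ℂ) := Submodule.span ℂ (Set.range Fk) with hS
  have hS1 : S ≤ TN L χ n := by
    rw [hS, Submodule.span_le]
    rintro F ⟨i, rfl⟩
    exact hF i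
  have hS2 : ∀ F ∈ S, tv n (fr n u) F = rt n κ • F := by
    intro F hFS
    induction hFS using Submodule.span_induction with
    | mem F h =>
      obtain ⟨i, rfl⟩ := h
      exact hE i
    | zero => rw [tv_zero, smul_zero]
    | add F G _ _ h1 h2 => rw [tv_add, h1, h2, smul_add]
    | smul a F _ h => rw [tv_smul, h, smul_comm]
  obtain ⟨hf, hr⟩ := hEGD V L χ hL n g hn hfin hfr u hu u1 hu1 h1 κ S hS1 hS2
  have h2 : Submodule.span ℂ (Set.range (fun i j => Fk i (v j) * c j)) = S.map (ev v c) := by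
    rw [hS, Submodule.map_span, ← Set.range_comp]
    rfl
  rw [h2]
  exact (Submodule.finrank_map_le (ev v c) S).trans hr

end tv

open Classical in
/-- Few classes are small. -/
theorem card_small (n M : ℕ) :
    (Finset.univ.filter (fun κ : Fin n => ∃ J : ℤ, (n : ℤ) ∣ J - (κ.val : ℤ) ∧
      |J| < (M : ℤ))).card ≤ 2 * M := by
  rcases Nat.eq_zero_or_pos n with rfl | hn
  · refine (Finset.card_le_univ _).trans ?_
    simp
  have hsub : Finset.univ.filter (fun κ : Fin n => ∃ J : ℤ, (n : ℤ) ∣ J - (κ.val : ℤ) ∧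
      |J| < (M : ℤ)) ⊆ (Finset.Ioo (-(M : ℤ)) (M : ℤ)).image
        (fun J : ℤ => (⟨(J % (n : ℤ)).toNat, by
          have h1 := Int.emod_lt_of_pos J (show (0 : ℤ) < (n : ℤ) by exact_mod_cast hn)
          have h2 := Int.emod_nonneg J (show (n : ℤ) ≠ 0 by exact_mod_cast hn.ne')
          omega⟩ : Fin n)) := by
    intro κ hκ
    rw [Finset.mem_filter] at hκ
    obtain ⟨-, J, hJ, hJM⟩ := hκ
    rw [abs_lt] at hJM
    rw [Finset.mem_image]
    refine ⟨J, Finset.mem_Ioo.2 hJM, ?_⟩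
    apply Fin.ext
    simp only
    have h3 : J % (n : ℤ) = (κ.val : ℤ) := by
      have h4 : J % (n : ℤ) = (κ.val : ℤ) % (n : ℤ) := (Int.emod_emod_of_dvd J (dvd_refl _)).symm.trans
        (by rw [Int.emod_emod_of_dvd J (dvd_refl _)]; exact Int.emod_eq_emod_iff_emod_sub_eq_zero.2
              (Int.emod_eq_zero_of_dvd hJ))
      rw [h4]
      exact Int.emod_eq_of_lt (Int.natCast_nonneg _) (by exact_mod_cast κ.2)
    rw [h3, Int.toNat_natCast]
  refine (Finset.card_le_card hsub).trans (Finset.card_image_le.trans ?_)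
  rw [Int.card_Ioo]
  omega

/-- **AMY**. -/
theorem amy (hGAV : GavStmt) (hDCP : DcpStmt) (hDEC : DecStmt) (hEGD : EgdStmt)
    (hMNB : MnbStmt) (hFFB : FfbStmt) (hTRF : ZES.TrfStmt) : AmyStmt := by
  classical
  intro g τ hS l hl lam P Q P1 Q1 L hlam hL hsy hHY R r w x y hw hk
  obtain ⟨Λ, Lt, χ, β, hLAT, hβ, hmem, hRR, hin, hmet, hpair⟩ := hGAV g τ hS
  obtain ⟨-, -, hdim⟩ := hTRF g τ hS Λ Lt χ β hβ hRR
  set n : ℕ := 8 * l ^ 2 with hn
  have hn1 : 1 ≤ n := by have := Nat.pow_pos (n := 2) hl; omega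
  have hneven : Even n := ⟨4 * l ^ 2, by omega⟩
  obtain ⟨hfin, hfr⟩ := hdim n hn1
  have hg : 1 ≤ g := by
    rcases Nat.eq_zero_or_pos g with rfl | h
    · simp at hsy
    · exact h
  set u : EuclideanSpace ℂ (Fin g) := Λ (pr τ P Q) with hu
  set u1 : EuclideanSpace ℂ (Fin g) := Λ (pr τ P1 Q1) with hu1
  have huL : u ∈ Lt := by
    rw [hmem, hu, ContinuousLinearEquiv.symm_apply_apply]
    exact ⟨P, Q, fun i => rfl⟩
  have hu1L : u1 ∈ Lt := by
    rw [hmem, hu1, ContinuousLinearEquiv.symm_apply_apply]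
    exact ⟨P1, Q1, fun i => rfl⟩
  have hpr1 : pr τ P1 Q1 = fun i => (((P1 i : ℝ) : ℝ) : ℂ) + ∑ j, τ i j * (((Q1 j : ℝ) : ℝ) : ℂ) := by
    funext i
    simp only [pr, Complex.ofReal_intCast]
  have hint : (inner ℂ u u1).im = 1 := by
    rw [hu, hu1, hin, hpr1, hpair P Q (fun i => (P1 i : ℝ)) (fun i => (Q1 i : ℝ)), sy]
    exact_mod_cast hsy
  have hune : u ≠ 0 := by
    intro h0
    rw [h0, inner_zero_left] at hint
    simp at hint
  have hunorm : ‖u‖ ^ 2 = (HY τ (pr τ P Q) (pr τ P Q)).re := by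
    rw [← hin, ← hu]
    have := inner_self_eq_norm_sq (𝕜 := ℂ) u
    exact this.symm
  have hupos : 0 < ‖u‖ ^ 2 := by
    have := norm_pos_iff.2 hune
    positivity
  have hul : lam * ‖u‖ ^ 2 ≤ 1 := by rw [hunorm]; exact hHY
  have hu1' : ‖u‖ ^ 2 ≤ 1 := by nlinarith
  have hlR : (0 : ℝ) < (l : ℝ) := by exact_mod_cast hl
  have hnR : (n : ℝ) = 8 * (l : ℝ) ^ 2 := by rw [hn]; push_cast; ring
  have hnpos : (0 : ℝ) < (n : ℝ) := by rw [hnR]; positivity
  -- the functions of the rows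
  set Fr : Fin R → (Fin g → ℂ) → ℂ := fun i =>
    FF τ l (lft (r i).2).2.1 (lft (r i).2).2.2 (r i).1 with hFr
  set Sr : Fin R → ℝ := fun i => 2 ^ g * t0 τ *
    Real.exp (8 * Real.pi * Yq τ (fun m => ((lft (r i).2).2.2 m : ℝ)) / (l : ℝ) ^ 2) with hSr
  have hSr0 : ∀ i, 0 ≤ Sr i := fun i => by
    have := t0_nonneg τ
    simp only [hSr]
    positivity
  set G : Fin R → EuclideanSpace ℂ (Fin g) → ℂ := fun i v =>
    Fr i (Λ.symm v) * Complex.exp ((n : ℂ) * β (Λ.symm v)) with hG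
  have hGT : ∀ i, G i ∈ TN Lt χ n := fun i =>
    (hRR n (Fr i)).1 ((hFFB g τ hS l hl (lft (r i).2).2.1 (lft (r i).2).2.2 (r i).1).2)
  have hGN : ∀ i, NB n (Sr i) (G i) := by
    intro i v
    obtain ⟨yz, hyz⟩ := exists_im hS (Λ.symm v)
    have h1 := (hFFB g τ hS l hl (lft (r i).2).2.1 (lft (r i).2).2.2 (r i).1).1 (Λ.symm v) yz hyz
    have h2 := hmet n (Λ.symm v) yz hyz
    rw [ContinuousLinearEquiv.apply_symm_apply] at h2
    simp only [hG]
    rw [norm_mul, h2]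
    refine (mul_le_mul_of_nonneg_right h1 (Real.exp_pos _).le).trans (le_of_eq ?_)
    rw [mul_assoc (2 ^ g * t0 τ * _), ← Real.exp_add]
    simp only [hSr]
    congr 2
    rw [hnR]
    ring
  choose Fk hFk hFs using fun i => hDCP _ Lt χ hLAT n hn1 hneven u huL (Sr i) (G i) (hGT i) (hGN i)
  -- the columns
  set v : Fin R → EuclideanSpace ℂ (Fin g) := fun j => Λ (w j) with hv
  set c : Fin R → ℂ := fun j => Complex.exp (-((n : ℂ) * β (w j))) with hc
  have hwj : ∀ j, w j = fun i => (x j i : ℂ) + ∑ m, τ i m * (y j m : ℂ) := fun j => funext (hw j)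
  have hwim : ∀ j i, (w j i).im = Yv τ (y j) i := fun j i => by rw [hw j i]; exact im_lin τ _ _ _
  have hcn : ∀ j, ‖c j‖ = Real.exp (-(Real.pi * (n : ℝ) * ‖v j‖ ^ 2 / 2)
      + 8 * Real.pi * (l : ℝ) ^ 2 * Yq τ (y j)) := by
    intro j
    simp only [hc]
    rw [Complex.exp_neg, norm_inv, hmet n (w j) (y j) (hwim j), ← Real.exp_neg]
    congr 1
    simp only [hv]
    rw [hnR]
    ring
  have him : ∀ j, (inner ℂ u (v j)).im = sy P Q (x j) (y j) := by
    intro j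
    simp only [hv]
    rw [hu, hin, hwj j]
    exact hpair P Q (x j) (y j)
  set M : ℕ := 4 * l * (L + 1) with hM
  set sm : Finset (Fin n) := Finset.univ.filter (fun κ : Fin n =>
    ∃ J : ℤ, (n : ℤ) ∣ J - (κ.val : ℤ) ∧ |J| < (M : ℤ)) with hsm
  have hsmc : sm.card ≤ 2 * M := card_small n M
  set ω : Fin R → ℝ := fun i => 4 * 2 ^ g *
    Real.exp (8 * Real.pi * Yq τ (fun m => ((lft (r i).2).2.2 m : ℝ)) / (l : ℝ) ^ 2) with hω
  set χ' : Fin R → ℝ := fun j => t0 τ * Real.exp (8 * Real.pi * (l : ℝ) ^ 2 * Yq τ (y j)) with hχ'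
  set ε : ℝ := Real.exp (-(2 * Real.pi * lam * (L : ℝ) ^ 2)) with hε
  have hε0 : 0 ≤ ε := (Real.exp_pos _).le
  have hε1 : ε ≤ 1 := by
    rw [hε, Real.exp_le_one_iff, neg_nonpos]
    have : 0 ≤ lam := by linarith
    positivity
  have hω0 : ∀ i, 0 ≤ ω i := fun i => by simp only [hω]; positivity
  have hχ0 : ∀ j, 0 ≤ χ' j := fun j => by
    have := t0_nonneg τ
    simp only [hχ']
    positivity
  set Mk : Fin n → Fin R → Fin R → ℂ := fun κ i j => Fk i κ (v j) * c j with hMk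
  have hprod : ∀ i j, Sr i * Real.exp (Real.pi * (n : ℝ) * ‖v j‖ ^ 2 / 2) * ‖c j‖ * 4
      = ω i * χ' j := by
    intro i j
    rw [hcn j, mul_assoc (Sr i), ← Real.exp_add]
    have e1 : Real.pi * (n : ℝ) * ‖v j‖ ^ 2 / 2 + (-(Real.pi * (n : ℝ) * ‖v j‖ ^ 2 / 2)
        + 8 * Real.pi * (l : ℝ) ^ 2 * Yq τ (y j)) = 8 * Real.pi * (l : ℝ) ^ 2 * Yq τ (y j) := by
      ring
    rw [e1]
    simp only [hSr, hω, hχ']
    ring
  have hb1 : ∀ κ i j, ‖Mk κ i j‖ ≤ ω i * χ' j := by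
    intro κ i j
    simp only [hMk]
    rw [norm_mul, ← hprod i j]
    have h1 := (hFk i κ).2.1 (v j)
    have h2 := mul_le_mul_of_nonneg_right h1 (norm_nonneg (c j))
    refine h2.trans ?_
    have h3 : 0 ≤ Sr i * Real.exp (Real.pi * (n : ℝ) * ‖v j‖ ^ 2 / 2) * ‖c j‖ :=
      mul_nonneg (mul_nonneg (hSr0 i) (Real.exp_pos _).le) (norm_nonneg _)
    linarith
  have hb2 : ∀ κ, κ ∉ sm → ∀ i j, ‖Mk κ i j‖ ≤ ε * (ω i * χ' j) := by
    intro κ hκ i j
    have hκ' : ∀ J : ℤ, (n : ℤ) ∣ J - (κ.val : ℤ) → (M : ℤ) ≤ |J| := by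
      intro J hJ
      by_contra hlt
      push Not at hlt
      exact hκ (by rw [hsm, Finset.mem_filter]; exact ⟨Finset.mem_univ _, J, hJ, hlt⟩)
    have hdist : ∀ j' : ℤ, (n : ℤ) ∣ j' - (κ.val : ℤ) →
        4 * (l : ℝ) * L ≤ |(j' : ℝ) + (n : ℝ) * (inner ℂ u (v j)).im| := by
      intro j' hj'
      obtain ⟨N, hN⟩ := hk j
      rw [← him j] at hN
      have h1 : (n : ℤ) ∣ (j' + n * N) - (κ.val : ℤ) := by
        have e : (j' + n * N) - (κ.val : ℤ) = (j' - (κ.val : ℤ)) + n * N := by ring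
        rw [e]
        exact dvd_add hj' (dvd_mul_right _ _)
      have h2 := hκ' _ h1
      have h3 : ((4 * l * (L + 1) : ℕ) : ℝ) ≤ |((j' + n * N : ℤ) : ℝ)| := by
        rw [← Int.cast_abs]
        exact_mod_cast h2
      have h4 : |(n : ℝ) * ((inner ℂ u (v j)).im - (N : ℝ))| ≤ 4 * l := by
        rw [abs_mul, abs_of_pos hnpos]
        calc (n : ℝ) * |(inner ℂ u (v j)).im - (N : ℝ)| ≤ (n : ℝ) * (1 / (2 * (l : ℝ))) :=
              mul_le_mul_of_nonneg_left hN hnpos.le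
          _ = 4 * l := by rw [hnR]; field_simp; ring
      have h5 : (j' : ℝ) + (n : ℝ) * (inner ℂ u (v j)).im =
          ((j' + n * N : ℤ) : ℝ) + (n : ℝ) * ((inner ℂ u (v j)).im - (N : ℝ)) := by
        push_cast
        ring
      rw [h5]
      have h6 := abs_sub_abs_le_abs_sub ((j' + n * N : ℤ) : ℝ)
        (-((n : ℝ) * ((inner ℂ u (v j)).im - (N : ℝ))))
      rw [abs_neg, sub_neg_eq_add] at h6
      push_cast at h3 h6 ⊢
      linarith
    have h7 := hDEC _ n κ.val (Sr i) (4 * (l : ℝ) * L) u (Fk i κ) hn1 (hSr0 i) (by positivity) hune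
      hu1' (hFk i κ).1.1 (hFk i κ).2.1 (hFk i κ).2.2 (v j) hdist
    have h8 : Real.exp (-(Real.pi * (4 * (l : ℝ) * L) ^ 2 / ((n : ℝ) * ‖u‖ ^ 2))) ≤ ε := by
      rw [hε]
      apply Real.exp_le_exp.2
      rw [neg_le_neg_iff]
      have e1 : Real.pi * (4 * (l : ℝ) * L) ^ 2 / ((n : ℝ) * ‖u‖ ^ 2) =
          2 * Real.pi * (L : ℝ) ^ 2 * (1 / ‖u‖ ^ 2) := by
        rw [hnR]
        field_simp
        ring
      rw [e1]
      have e2 : lam ≤ 1 / ‖u‖ ^ 2 := by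
        rw [le_div_iff₀ hupos]; exact hul
      have e3 : 0 ≤ 2 * Real.pi * (L : ℝ) ^ 2 := by positivity
      calc 2 * Real.pi * lam * (L : ℝ) ^ 2 = 2 * Real.pi * (L : ℝ) ^ 2 * lam := by ring
        _ ≤ _ := mul_le_mul_of_nonneg_left e2 e3
    simp only [hMk]
    rw [norm_mul, ← hprod i j]
    have h9 : 0 ≤ 4 * Sr i * Real.exp (Real.pi * (n : ℝ) * ‖v j‖ ^ 2 / 2) :=
      mul_nonneg (mul_nonneg (by norm_num) (hSr0 i)) (Real.exp_pos _).le
    calc ‖Fk i κ (v j)‖ * ‖c j‖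
        ≤ (4 * Sr i * Real.exp (Real.pi * (n : ℝ) * ‖v j‖ ^ 2 / 2) * ε) * ‖c j‖ :=
          mul_le_mul_of_nonneg_right (h7.trans (mul_le_mul_of_nonneg_left h8 h9)) (norm_nonneg _)
      _ = _ := by ring
  have hrank : ∀ κ, Module.finrank ℂ (Submodule.span ℂ (Set.range (Mk κ))) ≤ n ^ (g - 1) := by
    intro κ
    exact rank_le hEGD hLAT hn1 hfin hfr huL hu1L hint κ.val (fun i => Fk i κ)
      (fun i => (hFk i κ).1) (fun i => (hFk i κ).2.2) v c
  have hmain := hMNB (Fin R) (Fin n) (n ^ (g - 1)) sm Mk ω χ' ε hε0 hε1 hω0 hχ0 hrank hb1 hb2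
  have hmat : (Matrix.of fun i j => FF τ l (lft (r i).2).2.1 (lft (r i).2).2.2 (r i).1 (w j)) =
      Matrix.of fun i j => ∑ κ, Mk κ i j := by
    ext i j
    rw [Matrix.of_apply, Matrix.of_apply]
    simp only [hMk]
    rw [← Finset.sum_mul, ← hFs i (v j)]
    simp only [hG, hv, hc, ContinuousLinearEquiv.symm_apply_apply]
    rw [mul_assoc, ← Complex.exp_add, add_neg_cancel, Complex.exp_zero, mul_one]
  rw [hmat]
  refine hmain.trans ?_
  rw [Fintype.card_fin, Fintype.card_fin]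
  have hexp : ε ^ (R - n ^ (g - 1) * sm.card) ≤ ε ^ (R - (L + 1) * (8 ^ g * l ^ (2 * g - 1))) := by
    apply pow_le_pow_of_le_one hε0 hε1
    have h1 : n ^ (g - 1) * sm.card ≤ (L + 1) * (8 ^ g * l ^ (2 * g - 1)) := by
      calc n ^ (g - 1) * sm.card ≤ n ^ (g - 1) * (2 * M) := Nat.mul_le_mul_left _ hsmc
        _ = (L + 1) * (8 ^ g * l ^ (2 * g - 1)) := by
            obtain ⟨k, rfl⟩ : ∃ k, g = k + 1 := ⟨g - 1, by omega⟩
            have e1 : 2 * (k + 1) - 1 = 2 * k + 1 := by omega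
            rw [Nat.add_sub_cancel, e1, hn, hM, mul_pow, ← pow_mul, pow_succ, pow_succ]
            ring
    omega
  have hprodω : ∏ i, ω i = (4 * 2 ^ g) ^ R * ∏ i : Fin R,
      Real.exp (8 * Real.pi * Yq τ (fun m => ((lft (r i).2).2.2 m : ℝ)) / (l : ℝ) ^ 2) := by
    simp only [hω]
    rw [Finset.prod_mul_distrib, Finset.prod_const, Finset.card_univ, Fintype.card_fin]
  rw [hprodω, hnR]
  have hA : 0 ≤ (R.factorial : ℝ) * (8 * (l : ℝ) ^ 2) ^ R := by positivity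
  have hB : 0 ≤ ((4 * 2 ^ g) ^ R * ∏ i : Fin R,
      Real.exp (8 * Real.pi * Yq τ (fun m => ((lft (r i).2).2.2 m : ℝ)) / (l : ℝ) ^ 2)) *
      ∏ j, χ' j := by
    refine mul_nonneg (mul_nonneg (by positivity) (Finset.prod_nonneg fun i _ =>
      (Real.exp_pos _).le)) (Finset.prod_nonneg fun j _ => hχ0 j)
  calc (R.factorial : ℝ) * (8 * (l : ℝ) ^ 2) ^ R * ε ^ (R - n ^ (g - 1) * sm.card) *
        (((4 * 2 ^ g) ^ R * ∏ i : Fin R,
      Real.exp (8 * Real.pi * Yq τ (fun m => ((lft (r i).2).2.2 m : ℝ)) / (l : ℝ) ^ 2)) *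
      ∏ j, χ' j)
      ≤ (R.factorial : ℝ) * (8 * (l : ℝ) ^ 2) ^ R *
        ε ^ (R - (L + 1) * (8 ^ g * l ^ (2 * g - 1))) *
        (((4 * 2 ^ g) ^ R * ∏ i : Fin R,
      Real.exp (8 * Real.pi * Yq τ (fun m => ((lft (r i).2).2.2 m : ℝ)) / (l : ℝ) ^ 2)) *
      ∏ j, χ' j) :=
        mul_le_mul_of_nonneg_right (mul_le_mul_of_nonneg_left hexp hA) hB
    _ = _ := by ring

end Pool.Agent.ARC.H15Y
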