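import Pool.Agent.ARC.Stmts

/-!
# Squad ARC, row HDL
-/

set_option autoImplicit false

namespace Pool.Agent.ARC.H15

theorem aux (g l : ℕ) (hl : 2 ≤ l) (i0 : Fin g) (N : ℕ) :
    ∀ h : Fin g → ℤ, h i0 ≠ 0 → (h i0).natAbs ≤ N →
      ∃ (k : ℕ) (h' : Fin g → ℤ), (∀ i, h i = (l : ℤ) ^ k * h' i) ∧ ∃ i, ¬ (l : ℤ) ∣ h' i := by
  induction N with
  | zero =>
    intro h h0 hN
    exact absurd (Int.natAbs_eq_zero.1 (Nat.le_zero.1 hN)) h0
  | succ N ih =>
    intro h h0 hN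
    by_cases hd : ∃ i, ¬ (l : ℤ) ∣ h i
    · exact ⟨0, h, fun i => by rw [pow_zero, one_mul], hd⟩
    · push Not at hd
      choose h' hh' using hd
      have h1 : h' i0 ≠ 0 := by
        intro hz
        apply h0
        rw [hh' i0, hz, mul_zero]
      have h2 : (h' i0).natAbs ≤ N := by
        have h3 : (h i0).natAbs = l * (h' i0).natAbs := by
          rw [hh' i0, Int.natAbs_mul, Int.natAbs_natCast]
        have h4 : 0 < (h' i0).natAbs := Int.natAbs_pos.2 h1
        have h5 : 2 * (h' i0).natAbs ≤ l * (h' i0).natAbs := Nat.mul_le_mul_right _ hl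
        omega
      obtain ⟨k, h'', h6, h7⟩ := ih h' h1 h2
      refine ⟨k + 1, h'', fun i => ?_, h7⟩
      rw [hh' i, h6 i, pow_succ]
      ring

/-- **HDL**. -/
theorem hdl : HdlStmt := by
  intro g l h hl h0
  obtain ⟨i0, hi0⟩ := Function.ne_iff.1 h0
  exact aux g l hl.two_le i0 (h i0).natAbs h hi0 le_rfl

end Pool.Agent.ARC.H15
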