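import Pool.Agent.ARC.StmtsA

/-!
# Squad ARC, row RK1
-/

set_option autoImplicit false

namespace Pool.Agent.ARC.H15

open scoped BigOperators

/-- **RK1**. -/
theorem rk1 (hE : Pool.Agent.THS.EvbStatement) : Rk1Stmt := by
  intro K X ι _ _ _ f
  by_cases h : LinearIndependent K f
  · right
    set e := Fintype.equivFin ι with he
    have h1 : LinearIndependent K (fun i : Fin (Fintype.card ι) => f (e.symm i)) :=
      h.comp e.symm e.symm.injective
    obtain ⟨q, hq⟩ := hE K X (Fintype.card ι) (fun i => f (e.symm i)) h1
    refine ⟨fun j => q (e j), ?_⟩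
    have h2 : (Matrix.of fun i j : ι => f i (q (e j))) =
        (Matrix.of fun i j : Fin (Fintype.card ι) => f (e.symm i) (q j)).submatrix e e := by
      ext i j
      simp only [Matrix.of_apply, Matrix.submatrix_apply, Equiv.symm_apply_apply]
    rw [h2, Matrix.det_submatrix_equiv_self]
    exact hq
  · left
    rw [Fintype.not_linearIndependent_iff] at h
    obtain ⟨g, hg, i, hi⟩ := h
    refine ⟨g, fun h0 => hi (by rw [h0]; rfl), fun y => ?_⟩
    have h3 := congrFun hg y
    simp only [Finset.sum_apply, Pi.smul_apply, smul_eq_mul, Pi.zero_apply] at h3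
    exact h3

end Pool.Agent.ARC.H15
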